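import Pool.Agent.Y499.HC.Stm

/-!
# Job 7037 (HC-INV): the integral over all great semicircles
-/

set_option autoImplicit false

open Real Set MeasureTheory Metric
open scoped ENNReal

namespace Pool.Agent.Y333.HC

open Pool.Agent.Y499.HC

/-- symmetry -/
theorem half {F : ℝ → ℝ≥0∞} (hF : ∀ τ, F (π - τ) = F τ) :
    ∫⁻ τ in Ioo 0 π, F τ = 2 * ∫⁻ τ in Ioo 0 (π / 2), F τ := by
  have hpi := Real.pi_pos
  have h1 : Ioo 0 π = Ioo 0 (π / 2) ∪ Ico (π / 2) π :=
    (Ioo_union_Ico_eq_Ioo (by linarith) (by linarith)).symm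
  have h2 : Disjoint (Ioo 0 (π / 2)) (Ico (π / 2) π) := by
    rw [Set.disjoint_left]
    intro x hx hx'
    exact absurd hx.2 (not_lt.2 hx'.1)
  have h3 : ∫⁻ τ in Ico (π / 2) π, F τ = ∫⁻ τ in Ioo 0 (π / 2), F τ := by
    rw [← setLIntegral_congr (Ioo_ae_eq_Ico (μ := (volume : Measure ℝ)) (a := π / 2) (b := π)),
      ← lintegral_indicator measurableSet_Ioo, ← lintegral_indicator measurableSet_Ioo,
      ← lintegral_sub_left_eq_self _ π]
    refine lintegral_congr fun x => ?_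
    by_cases hx : x ∈ Ioo 0 (π / 2)
    · rw [indicator_of_mem hx, indicator_of_mem (by constructor <;> linarith [hx.1, hx.2]), hF]
    · rw [indicator_of_notMem hx, indicator_of_notMem]
      intro hx'
      exact hx (by constructor <;> linarith [hx'.1, hx'.2])
  rw [h1, lintegral_union measurableSet_Ico h2, h3, two_mul]

/-- the kernel -/
noncomputable def kk (d : ℕ) (α s : ℝ) : ℝ≥0∞ :=
  ENNReal.ofReal (1 / (cos s ^ (d + 1) * √(sin α ^ 2 - sin s ^ 2)))

theorem kk_meas (d : ℕ) : Measurable fun p : ℝ × ℝ => kk d p.1 p.2 := by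
  unfold kk
  fun_prop

/-- the inner substitution -/
theorem inner_sub (d : ℕ) (f : ℝ → ℝ≥0∞) {α : ℝ} (hα : α ∈ Ioo 0 (π / 2)) :
    ∫⁻ τ in Ioo 0 (π / 2), ENNReal.ofReal (1 / C α τ ^ (d + 2)) * f (S α τ) =
      ∫⁻ s in Ioo 0 α, kk d α s * f s := by
  have hpi := Real.pi_pos
  have hsa : 0 < sin α := sin_pos_of_pos_of_lt_pi hα.1 (by linarith [hα.2])
  have hsa1 : sin α < 1 := by
    rw [← sin_pi_div_two]
    exact sin_lt_sin_of_lt_of_le_pi_div_two (by linarith [hα.1]) le_rfl hα.2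
  have hst : ∀ τ ∈ Ioo 0 (π / 2), 0 < sin τ ∧ sin τ < 1 := by
    intro τ hτ
    refine ⟨sin_pos_of_pos_of_lt_pi hτ.1 (by linarith [hτ.2]), ?_⟩
    rw [← sin_pi_div_two]
    exact sin_lt_sin_of_lt_of_le_pi_div_two (by linarith [hτ.1]) le_rfl hτ.2
  have hct : ∀ τ ∈ Ioo 0 (π / 2), 0 < cos τ := fun τ hτ =>
    cos_pos_of_mem_Ioo ⟨by linarith [hτ.1], hτ.2⟩
  have hm : ∀ τ ∈ Ioo 0 (π / 2), 0 < sin α * sin τ ∧ sin α * sin τ < 1 := by
    intro τ hτ
    obtain ⟨h1, h2⟩ := hst τ hτ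
    exact ⟨mul_pos hsa h1, by nlinarith⟩
  have hS : ∀ τ ∈ Ioo 0 (π / 2), sin (S α τ) = sin α * sin τ := by
    intro τ hτ
    obtain ⟨h1, h2⟩ := hm τ hτ
    exact sin_arcsin (by linarith) h2.le
  have hCS : ∀ τ, cos (S α τ) = C α τ := fun τ => cos_arcsin _
  have hC : ∀ τ ∈ Ioo 0 (π / 2), 0 < C α τ := by
    intro τ hτ
    obtain ⟨h1, h2⟩ := hm τ hτ
    exact Real.sqrt_pos.2 (by nlinarith)
  have himg : (fun τ => S α τ) '' Ioo 0 (π / 2) = Ioo 0 α := by
    ext s
    constructor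
    · rintro ⟨τ, hτ, rfl⟩
      obtain ⟨h1, h2⟩ := hm τ hτ
      refine ⟨arcsin_pos.2 h1, ?_⟩
      change arcsin (sin α * sin τ) < α
      rw [← arcsin_sin (x := α) (by linarith [hα.1]) hα.2.le]
      refine arcsin_lt_arcsin (by rw [arcsin_sin (x := α) (by linarith [hα.1]) hα.2.le]; linarith)
        ?_ ?_
      · rw [arcsin_sin (x := α) (by linarith [hα.1]) hα.2.le]
        nlinarith [(hst τ hτ).2]
      · exact hsa1.le
    · intro hs
      have hss : 0 < sin s := sin_pos_of_pos_of_lt_pi hs.1 (by linarith [hs.2, hα.2])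
      have hs1 : sin s < sin α :=
        sin_lt_sin_of_lt_of_le_pi_div_two (by linarith [hs.1]) hα.2.le hs.2
      have hq0 : 0 < sin s / sin α := div_pos hss hsa
      have hq1 : sin s / sin α < 1 := (div_lt_one hsa).2 hs1
      refine ⟨arcsin (sin s / sin α), ⟨arcsin_pos.2 hq0, ?_⟩, ?_⟩
      · exact arcsin_lt_pi_div_two.2 hq1
      · change arcsin (sin α * sin (arcsin (sin s / sin α))) = s
        rw [sin_arcsin (by linarith) hq1.le, mul_div_cancel₀ _ hsa.ne']
        exact arcsin_sin (by linarith [hs.1]) (by linarith [hs.2, hα.2])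
  have hinj : InjOn (fun τ => S α τ) (Ioo 0 (π / 2)) := by
    intro τ hτ τ' hτ' h
    have h1 : sin α * sin τ = sin α * sin τ' := by
      rw [← hS τ hτ, ← hS τ' hτ']
      exact congrArg sin h
    have h2 := mul_left_cancel₀ hsa.ne' h1
    exact injOn_sin ⟨by linarith [hτ.1], hτ.2.le⟩ ⟨by linarith [hτ'.1], hτ'.2.le⟩ h2
  have hder : ∀ τ ∈ Ioo 0 (π / 2), HasDerivWithinAt (fun τ => S α τ)
      (sin α * cos τ / C α τ) (Ioo 0 (π / 2)) τ := by
    intro τ hτ
    obtain ⟨h1, h2⟩ := hm τ hτ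
    have h3 : HasDerivAt (fun τ => sin α * sin τ) (sin α * cos τ) τ :=
      (hasDerivAt_sin τ).const_mul _
    have h4 := (hasDerivAt_arcsin (x := sin α * sin τ) (by linarith) h2.ne).comp τ h3
    refine (h4.congr_deriv ?_).hasDerivWithinAt
    unfold C
    ring
  rw [← himg, lintegral_image_eq_lintegral_abs_deriv_mul measurableSet_Ioo hder hinj]
  refine setLIntegral_congr_fun measurableSet_Ioo fun τ hτ => ?_
  rw [← mul_assoc]
  congr 1
  unfold kk
  have hc := hC τ hτ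
  have hct' := hct τ hτ
  rw [hCS, hS τ hτ, ← ENNReal.ofReal_mul (abs_nonneg _),
    abs_of_pos (div_pos (mul_pos hsa hct') hc)]
  congr 1
  have e1 : sin α ^ 2 - (sin α * sin τ) ^ 2 = (sin α * cos τ) ^ 2 := by
    have := sin_sq_add_cos_sq τ
    have h5 : cos τ ^ 2 = 1 - sin τ ^ 2 := by linarith
    rw [mul_pow, mul_pow, h5]
    ring
  rw [e1, Real.sqrt_sq (mul_pos hsa hct').le]
  field_simp
  ring

/-- the outer substitution -/
theorem outer_sub (d : ℕ) {s : ℝ} (hs : s ∈ Ioo 0 (π / 2)) :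
    ∫⁻ α in Ioo s (π / 2), ENNReal.ofReal (sin α * cos α ^ (d + 1)) * kk d α s =
      ∫⁻ φ in Ioo 0 (π / 2), ENNReal.ofReal (sin φ ^ (d + 1)) := by
  have hpi := Real.pi_pos
  have hcs : 0 < cos s := cos_pos_of_mem_Ioo ⟨by linarith [hs.1], hs.2⟩
  have hcs1 : cos s < 1 := by
    rw [← cos_zero]
    exact cos_lt_cos_of_nonneg_of_le_pi_div_two le_rfl hs.2.le hs.1
  have hst : ∀ τ ∈ Ioo 0 (π / 2), 0 < sin τ ∧ sin τ < 1 := by
    intro τ hτ
    refine ⟨sin_pos_of_pos_of_lt_pi hτ.1 (by linarith [hτ.2]), ?_⟩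
    rw [← sin_pi_div_two]
    exact sin_lt_sin_of_lt_of_le_pi_div_two (by linarith [hτ.1]) le_rfl hτ.2
  have hct : ∀ τ ∈ Ioo 0 (π / 2), 0 < cos τ := fun τ hτ =>
    cos_pos_of_mem_Ioo ⟨by linarith [hτ.1], hτ.2⟩
  have hm : ∀ τ ∈ Ioo 0 (π / 2), 0 < cos s * sin τ ∧ cos s * sin τ < 1 := by
    intro τ hτ
    obtain ⟨h1, h2⟩ := hst τ hτ
    exact ⟨mul_pos hcs h1, by nlinarith⟩
  have himg : (fun φ => arccos (cos s * sin φ)) '' Ioo 0 (π / 2) = Ioo s (π / 2) := by
    ext α
    constructor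
    · rintro ⟨φ, hφ, rfl⟩
      obtain ⟨h1, h2⟩ := hm φ hφ
      refine ⟨?_, arccos_lt_pi_div_two.2 h1⟩
      change s < arccos (cos s * sin φ)
      have h3 : arccos (cos s) < arccos (cos s * sin φ) := by
        refine arccos_lt_arccos (by linarith) ?_ hcs1.le
        nlinarith [(hst φ hφ).2]
      rw [arccos_cos hs.1.le (by linarith [hs.2])] at h3
      exact h3
    · intro hα
      have hca : 0 < cos α := cos_pos_of_mem_Ioo ⟨by linarith [hα.1, hs.1], hα.2⟩
      have hca1 : cos α < cos s :=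
        cos_lt_cos_of_nonneg_of_le_pi_div_two hs.1.le hα.2.le hα.1
      have hq0 : 0 < cos α / cos s := div_pos hca hcs
      have hq1 : cos α / cos s < 1 := (div_lt_one hcs).2 hca1
      refine ⟨arcsin (cos α / cos s), ⟨arcsin_pos.2 hq0, ?_⟩, ?_⟩
      · exact arcsin_lt_pi_div_two.2 hq1
      · change arccos (cos s * sin (arcsin (cos α / cos s))) = α
        rw [sin_arcsin (by linarith) hq1.le, mul_div_cancel₀ _ hcs.ne']
        exact arccos_cos (by linarith [hα.1, hs.1]) (by linarith [hα.2])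
  have hcA : ∀ φ ∈ Ioo 0 (π / 2), cos (arccos (cos s * sin φ)) = cos s * sin φ := by
    intro φ hφ
    obtain ⟨h1, h2⟩ := hm φ hφ
    exact cos_arccos (by linarith) h2.le
  have hinj : InjOn (fun φ => arccos (cos s * sin φ)) (Ioo 0 (π / 2)) := by
    intro τ hτ τ' hτ' h
    have h1 : cos s * sin τ = cos s * sin τ' := by
      rw [← hcA τ hτ, ← hcA τ' hτ']
      exact congrArg cos h
    have h2 := mul_left_cancel₀ hcs.ne' h1
    exact injOn_sin ⟨by linarith [hτ.1], hτ.2.le⟩ ⟨by linarith [hτ'.1], hτ'.2.le⟩ h2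
  have hder : ∀ φ ∈ Ioo 0 (π / 2), HasDerivWithinAt (fun φ => arccos (cos s * sin φ))
      (-(cos s * cos φ / √(1 - (cos s * sin φ) ^ 2))) (Ioo 0 (π / 2)) φ := by
    intro φ hφ
    obtain ⟨h1, h2⟩ := hm φ hφ
    have h3 : HasDerivAt (fun φ => cos s * sin φ) (cos s * cos φ) φ :=
      (hasDerivAt_sin φ).const_mul _
    have h4 := (hasDerivAt_arccos (x := cos s * sin φ) (by linarith) h2.ne).comp φ h3
    refine (h4.congr_deriv ?_).hasDerivWithinAt
    ring
  rw [← himg, lintegral_image_eq_lintegral_abs_deriv_mul measurableSet_Ioo hder hinj]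
  refine setLIntegral_congr_fun measurableSet_Ioo fun φ hφ => ?_
  obtain ⟨h1, h2⟩ := hm φ hφ
  have hct' := hct φ hφ
  have hst' := (hst φ hφ).1
  have hsq : 0 < √(1 - (cos s * sin φ) ^ 2) := Real.sqrt_pos.2 (by nlinarith)
  unfold kk
  rw [hcA φ hφ, sin_arccos, ← ENNReal.ofReal_mul (by positivity),
    ← ENNReal.ofReal_mul (abs_nonneg _), abs_neg, abs_of_pos (by positivity)]
  congr 1
  have e1 : √(1 - (cos s * sin φ) ^ 2) ^ 2 - sin s ^ 2 = (cos s * cos φ) ^ 2 := by
    rw [Real.sq_sqrt (by nlinarith)]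
    have h5 : sin s ^ 2 = 1 - cos s ^ 2 := by linarith [sin_sq_add_cos_sq s]
    have h6 : cos φ ^ 2 = 1 - sin φ ^ 2 := by linarith [sin_sq_add_cos_sq φ]
    rw [mul_pow, mul_pow, h5, h6]
    ring
  rw [e1, Real.sqrt_sq (by positivity)]
  generalize √(1 - (cos s * sin φ) ^ 2) = Q at hsq ⊢
  rw [mul_pow]
  field_simp

/-- the integral over all great semicircles -/
theorem t_INV : T_INV := by
  intro d
  have hpi := Real.pi_pos
  set c0 := ∫⁻ φ in Ioo 0 (π / 2), ENNReal.ofReal (sin φ ^ (d + 1)) with hc0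
  have hc00 : c0 ≠ 0 := by
    rw [hc0]
    refine ((setLIntegral_pos_iff (by fun_prop)).2 ?_).ne'
    have h1 : Ioo 0 (π / 2) ⊆ Function.support (fun φ => ENNReal.ofReal (sin φ ^ (d + 1))) ∩
        Ioo 0 (π / 2) := by
      intro x hx
      refine ⟨?_, hx⟩
      have : 0 < sin x ^ (d + 1) := pow_pos (sin_pos_of_pos_of_lt_pi hx.1 (by linarith [hx.2])) _
      rw [Function.mem_support]
      exact (ENNReal.ofReal_pos.2 this).ne'
    refine lt_of_lt_of_le ?_ (measure_mono h1)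
    rw [Real.volume_Ioo]
    exact ENNReal.ofReal_pos.2 (by linarith)
  have hc0t : c0 ≠ ⊤ := by
    have h1 : c0 ≤ ∫⁻ φ in Ioo 0 (π / 2), 1 := by
      refine lintegral_mono fun x => ?_
      rw [← ENNReal.ofReal_one]
      refine ENNReal.ofReal_le_ofReal ?_
      have h2 : |sin x| ^ (d + 1) ≤ 1 := pow_le_one₀ (abs_nonneg _) (abs_sin_le_one x)
      exact (le_abs_self _).trans ((abs_pow _ _).le.trans h2)
    rw [setLIntegral_one, Real.volume_Ioo] at h1
    exact ne_top_of_le_ne_top ENNReal.ofReal_ne_top h1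
  refine ⟨2 * c0, mul_ne_zero two_ne_zero hc00, ENNReal.mul_ne_top ENNReal.ofNat_ne_top hc0t,
    fun f hf => ?_⟩
  set G : ℝ → ℝ → ℝ≥0∞ := fun α s => if s < α then
    ENNReal.ofReal (sin α * cos α ^ (d + 1)) * (kk d α s * f s) else 0 with hG
  have hGm : Measurable (Function.uncurry G) := by
    refine Measurable.ite (measurableSet_lt measurable_snd measurable_fst) ?_ measurable_const
    exact Measurable.mul (by fun_prop) ((kk_meas d).mul (hf.comp measurable_snd))
  have e1 : ∀ α ∈ Ioo 0 (π / 2), ENNReal.ofReal (sin α * cos α ^ (d + 1)) *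
      ∫⁻ τ in Ioo 0 π, ENNReal.ofReal (1 / C α τ ^ (d + 2)) * f (S α τ) =
      2 * ∫⁻ s in Ioo 0 (π / 2), G α s := by
    intro α hα
    rw [half (F := fun τ => ENNReal.ofReal (1 / C α τ ^ (d + 2)) * f (S α τ)) (fun τ => by
      unfold C S
      rw [sin_pi_sub]), inner_sub d f hα, mul_left_comm]
    congr 1
    rw [← lintegral_const_mul' _ _ ENNReal.ofReal_ne_top, ← lintegral_indicator measurableSet_Ioo,
      ← lintegral_indicator measurableSet_Ioo]
    refine lintegral_congr fun s => ?_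
    by_cases hs : s ∈ Ioo 0 α
    · rw [indicator_of_mem hs, indicator_of_mem (show s ∈ Ioo 0 (π / 2) from ⟨hs.1, hs.2.trans hα.2⟩),
        hG]
      simp only
      rw [if_pos hs.2]
    · rw [indicator_of_notMem hs]
      by_cases hs' : s ∈ Ioo 0 (π / 2)
      · rw [indicator_of_mem hs', hG]
        simp only
        rw [if_neg fun h => hs ⟨hs'.1, h⟩]
      · rw [indicator_of_notMem hs']
  have e2 : ∀ s ∈ Ioo 0 (π / 2), ∫⁻ α in Ioo 0 (π / 2), G α s = c0 * f s := by
    intro s hs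
    rw [hc0, ← outer_sub d hs, ← lintegral_mul_const'' _ ?_, ← lintegral_indicator measurableSet_Ioo,
      ← lintegral_indicator measurableSet_Ioo]
    · refine lintegral_congr fun α => ?_
      by_cases hα : α ∈ Ioo s (π / 2)
      · rw [indicator_of_mem hα,
          indicator_of_mem (show α ∈ Ioo 0 (π / 2) from ⟨hs.1.trans hα.1, hα.2⟩), hG]
        simp only
        rw [if_pos hα.1, mul_assoc]
      · rw [indicator_of_notMem hα]
        by_cases hα' : α ∈ Ioo 0 (π / 2)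
        · rw [indicator_of_mem hα', hG]
          simp only
          rw [if_neg fun h => hα ⟨h, hα'.2⟩]
        · rw [indicator_of_notMem hα']
    · refine Measurable.aemeasurable ?_
      exact Measurable.mul (by fun_prop) ((kk_meas d).comp (measurable_id.prodMk measurable_const))
  rw [setLIntegral_congr_fun measurableSet_Ioo e1, lintegral_const_mul' _ _ ENNReal.ofNat_ne_top,
    lintegral_lintegral_swap hGm.aemeasurable, setLIntegral_congr_fun measurableSet_Ioo e2,
    lintegral_const_mul _ hf, mul_assoc]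

end Pool.Agent.Y333.HC
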